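import Mathlib

set_option autoImplicit false

namespace Pool.Agent.Results.MP_6e9b54_lc.Minimal

open Set Filter Topology FirstOrder FirstOrder.Language

universe u v

variable (L : FirstOrder.Language.{u, v}) [L.Structure ℕ]

/-- the topology of pointwise convergence on the endomorphism monoid -/
@[reducible] def pw : TopologicalSpace (ℕ →[L] ℕ) :=
  TopologicalSpace.induced (fun f => (f : ℕ → ℕ)) inferInstance

/-- the automorphism group has finitely many orbits on `n`-tuples for every `n ≥ 1` -/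
def Oligo : Prop :=
  ∀ n, 1 ≤ n → ∃ R : Set (Fin n → ℕ), R.Finite ∧ ∀ t : Fin n → ℕ, ∃ g : ℕ ≃[L] ℕ, g ∘ t ∈ R

variable {L}

theorem tendsto_iff {α : Type _} {l : Filter α} {u : α → ℕ →[L] ℕ} {f : ℕ →[L] ℕ} :
    Tendsto u l (@nhds _ (pw L) f) ↔ ∀ n, ∀ᶠ a in l, u a n = f n := by
  rw [nhds_induced, tendsto_comap_iff, tendsto_pi_nhds]
  simp only [nhds_discrete, tendsto_pure, Function.comp]

theorem nhds_fin {f : ℕ →[L] ℕ} {A : Set (ℕ →[L] ℕ)} (h : A ∈ @nhds _ (pw L) f) :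
    ∃ k, ∀ t : ℕ →[L] ℕ, (∀ i < k, t i = f i) → t ∈ A := by
  by_contra hn
  push Not at hn
  choose t h1 h2 using hn
  obtain ⟨k, hk⟩ := (((tendsto_iff (u := t) (l := atTop)).2 (fun n =>
    (eventually_gt_atTop n).mono fun k hk => h1 k n hk)).eventually_mem h).exists
  exact h2 k hk

theorem lim_hom (f : ℕ → ℕ) (h : ∀ k, ∃ t : ℕ →[L] ℕ, ∀ i < k, t i = f i) :
    ∃ g : ℕ →[L] ℕ, ∀ i, g i = f i := by
  have key : ∀ {n} (x : Fin n → ℕ) (y : ℕ), ∃ t : ℕ →[L] ℕ, t ∘ x = f ∘ x ∧ t y = f y := by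
    intro n x y
    obtain ⟨m, hm⟩ := (finite_range x).bddAbove
    obtain ⟨t, ht⟩ := h (m + y + 1)
    refine ⟨t, funext fun i => ht _ ?_, ht _ (by omega)⟩
    have := hm ⟨i, rfl⟩
    omega
  refine ⟨⟨f, fun r x => ?_, fun r x hx => ?_⟩, fun _ => rfl⟩
  · obtain ⟨t, h1, h2⟩ := key x (Structure.funMap r x)
    rw [← h1, ← h2, t.map_fun]
  · obtain ⟨t, h1, -⟩ := key x 0
    rw [← h1]
    exact t.map_rel r x hx

theorem result (L : FirstOrder.Language.{u, v}) [L.Structure ℕ] (ho : Oligo L)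
    (τ : TopologicalSpace (ℕ →[L] ℕ)) (h2 : T2Space (ℕ →[L] ℕ))
    (hc : Continuous fun p : (ℕ →[L] ℕ) × (ℕ →[L] ℕ) => p.1.comp p.2)
    (hle : ∀ U, IsOpen[τ] U → IsOpen[pw L] U) : τ = pw L := by
  have hle : pw L ≤ τ := hle
  refine le_antisymm (le_iff_nhds _ _ |>.2 fun f => le_iff_ultrafilter.2 fun U hU => ?_) hle
  let P : ℕ → (ℕ → ℕ) × (ℕ → ℕ) → Prop := fun k p => ∀ᶠ t : ℕ →[L] ℕ in U, ∃ g : ℕ ≃[L] ℕ,
    ∀ i < k, g i = p.1 i ∧ g (t i) = p.2 i
  have step : ∀ k p, ∃ q : (ℕ → ℕ) × (ℕ → ℕ), P k p →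
      P (k + 1) q ∧ ∀ i < k, q.1 i = p.1 i ∧ q.2 i = p.2 i := by
    intro k p
    by_cases hp : P k p
    swap
    · exact ⟨p, fun h => absurd h hp⟩
    obtain ⟨R, r1, r2⟩ := ho (2 * k + 2) (by omega)
    choose γ hγ using fun t : ℕ →[L] ℕ => r2 fun i => if i.1 ≤ k then i.1 else t (i.1 - (k + 1))
    obtain ⟨r, -, hr⟩ := (Ultrafilter.eventually_exists_mem_iff r1 (f := U) (P := fun r t =>
      (γ t ∘ fun i : Fin (2 * k + 2) => if i.1 ≤ k then i.1 else t (i.1 - (k + 1))) = r)).1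
      (Eventually.of_forall fun t => ⟨_, hγ t, rfl⟩)
    obtain ⟨t0, ⟨g0, h0⟩, h1⟩ := (hp.and hr).exists
    refine ⟨(g0, g0 ∘ t0), fun _ => ⟨hr.mono fun t ht => ?_, h0⟩⟩
    refine ⟨g0.comp ((γ t0).symm.comp (γ t)), fun i hi => ⟨?_, ?_⟩⟩
    · have := congrFun (ht.trans h1.symm) ⟨i, by omega⟩
      simp only [Function.comp, if_pos (Nat.lt_succ_iff.1 hi)] at this
      simp [this]
    · have := congrFun (ht.trans h1.symm) ⟨i + (k + 1), by omega⟩
      simp only [Function.comp, if_neg (show ¬ i + (k + 1) ≤ k by omega),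
        Nat.add_sub_cancel] at this
      simp [this]
  choose nx hnx using step
  let s : ℕ → (ℕ → ℕ) × (ℕ → ℕ) := fun k => Nat.rec (id, id) nx k
  have hs : ∀ k, P k (s k) := by
    intro k
    induction k with
    | zero => exact Eventually.of_forall fun _ =>
        ⟨Language.Equiv.refl L ℕ, fun i hi => absurd hi (Nat.not_lt_zero i)⟩
    | succ k ih => exact (hnx k _ ih).1
  have hs2 : ∀ i k, i < k → (s k).1 i = (s (i + 1)).1 i ∧ (s k).2 i = (s (i + 1)).2 i := by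
    intro i k hk
    induction k, hk using Nat.le_induction with
    | base => exact ⟨rfl, rfl⟩
    | succ k hk ih =>
      obtain ⟨a, b⟩ := (hnx k _ (hs k)).2 i hk
      exact ⟨a.trans ih.1, b.trans ih.2⟩
  have key : ∀ k, ∀ᶠ t : ℕ →[L] ℕ in U, ∃ g : ℕ ≃[L] ℕ, ∀ i < k,
      g i = (s (i + 1)).1 i ∧ g (t i) = (s (i + 1)).2 i := fun k =>
    (hs k).mono fun t ⟨g, hg⟩ => ⟨g, fun i hi =>
      ⟨(hg i hi).1.trans (hs2 i k hi).1, (hg i hi).2.trans (hs2 i k hi).2⟩⟩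
  obtain ⟨a, ha⟩ := lim_hom (L := L) (fun i => (s (i + 1)).1 i) fun k => by
    obtain ⟨t, g, hg⟩ := (key k).exists
    exact ⟨g.toHom, fun i hi => (hg i hi).1⟩
  obtain ⟨u, hu⟩ := lim_hom (L := L) (fun i => (s (i + 1)).2 i) fun k => by
    obtain ⟨t, g, hg⟩ := (key k).exists
    exact ⟨g.toHom.comp t, fun i hi => (hg i hi).2⟩
  have e : u = a.comp f := by
    by_contra hne
    obtain ⟨A, B, a1, b1, a2, b2, h⟩ := t2_separation hne
    obtain ⟨V, hV, W, hW, h3⟩ := mem_nhds_prod_iff.1 (hc.tendsto (a, f) (b1.mem_nhds b2))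
    obtain ⟨k, hk⟩ := nhds_fin (nhds_mono hle (a1.mem_nhds a2))
    obtain ⟨m, hm⟩ := nhds_fin (nhds_mono hle hV)
    obtain ⟨t, ⟨g, hg⟩, ht⟩ := ((key (k + m)).and (hU hW)).exists
    exact disjoint_left.1 h
      (hk (g.toHom.comp t) fun i hi => (hg i (by omega)).2.trans (hu i).symm)
      (h3 (mk_mem_prod (hm g.toHom fun i hi => (hg i (by omega)).1.trans (ha i).symm) ht))
  refine tendsto_id'.1 (tendsto_iff.2 fun b => (key (b + f b + 1)).mono fun t ⟨g, hg⟩ => ?_)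
  refine g.injective (((hg b (by omega)).2.trans (hu b).symm).trans ?_)
  rw [e, Hom.comp_apply, ha]
  exact (hg (f b) (by omega)).1.symm

end Pool.Agent.Results.MP_6e9b54_lc.Minimal
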